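import Pool.Agent.N848.SK.Stm
import Pool.Agent.N615.AW.BOX
import Pool.Agent.R426.QK.KEY

/-!
# Project SK (helper848), job SK-KEY: boxes and the sum over the boxes for an arbitrary event

A port of the files `Pool/Agent/N615/AW/BOX.lean` and `Pool/Agent/N615/AW/KEY.lean` (helper615, after
project QK): the events are arbitrary conditions invariant under relabeling (`SK.Tr`).
-/

set_option autoImplicit false
set_option linter.unusedVariables false

open scoped Classical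

namespace Pool.Agent.N749.SK.Key

open Finset
open Pool.Agent.Y698
open Pool.Agent.Y703.CX (jj XX)
open Pool.Agent.R426.QK
open Pool.Agent.R426.QK.BOX (z2_self z2_swap ez0 ez0_coe cs_sw HB_sub)
open Pool.Agent.R426.QK.KEY (nrm_one_le prod_tt tt_one ph ph_mod ky CC mem_CC card_QB_le hb_box
  key_facts key_bij sm_fill la_fill prs_card keg_err)
open Pool.Agent.N615.AW.BOX (lb LN fcc nd_iff ext_val)
open Pool.Agent.N848.AW (MM NdL gg hh cA Nd3 Nd5)
open Pool.Agent.N848.SK (Evt Tr LawE Law KeyE S_KEYE)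

section one
variable {ι : Type} [Fintype ι] [LinearOrder ι] {S₀ : Finset RR} {p : ι → RR}

theorem gd_iff (hrec : RecP) {E : Evt} (hT : Tr E) (hp : Function.Injective p)
    (hpr : ∀ i, Pq (p i)) (hS₀ : ∀ u ∈ S₀, Pq u) (hd : ∀ i, p i ∉ S₀) :
    Pool.Agent.N848.SK.ev E (S₀ ∪ univ.image p) ↔
      E (S₀ ⊕ ι) univ (MM (fun u : S₀ => tt u) (fun i => tt (p i))
        (fun u v : S₀ => cs v u) (fun (u : S₀) l => cs (p l) u)
        (Pool.Agent.R426.QK.ext (fun i => tt (p i)) fun e : prs ι => cs (p e.1.1) (p e.1.2)))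
        (Sum.elim (fun u : S₀ => tt u) (fun i => tt (p i)))
        (Sum.elim (fun u : S₀ => gg u) (fun i => gg (p i)))
        (Sum.elim (fun u : S₀ => hh u) (fun i => hh (p i))) := by
  obtain ⟨φ, hφ⟩ : ∃ φ : S₀ ⊕ ι → RR, φ = Sum.elim (fun u : S₀ => (u : RR)) p := ⟨_, rfl⟩
  have hinj : Function.Injective φ := by
    rw [hφ]
    rintro (u | i) (v | j) h
    · simp only [Sum.elim_inl] at h
      rw [Subtype.ext h]
    · simp only [Sum.elim_inl, Sum.elim_inr] at h
      exact absurd (h ▸ u.2) (hd j)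
    · simp only [Sum.elim_inl, Sum.elim_inr] at h
      exact absurd (h ▸ v.2) (hd i)
    · simp only [Sum.elim_inr] at h
      rw [hp h]
  have hS : ∀ x, x ∈ S₀ ∪ univ.image p ↔ ∃ w, φ w = x := by
    intro x
    rw [hφ]
    simp only [Finset.mem_union, Finset.mem_image, Finset.mem_univ, true_and, Sum.exists,
      Sum.elim_inl, Sum.elim_inr]
    refine or_congr ?_ Iff.rfl
    constructor
    · intro hx
      exact ⟨⟨x, hx⟩, rfl⟩
    · rintro ⟨u, rfl⟩
      exact u.2
  have hM : ∀ v w : S₀ ⊕ ι, v ≠ w → MM (fun u : S₀ => tt u) (fun i => tt (p i))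
      (fun u v : S₀ => cs v u) (fun (u : S₀) l => cs (p l) u)
      (Pool.Agent.R426.QK.ext (fun i => tt (p i)) fun e : prs ι => cs (p e.1.1) (p e.1.2)) v w =
      cA (φ v) (φ w) := by
    rw [hφ]
    rintro (u | k) (v | l) hne
    · rfl
    · rfl
    · show cs (p k) v + tt (v : RR) * tt (p k) = cs (v : RR) (p k)
      exact (cs_sw hrec hpr hS₀ hd k v).symm
    · exact ext_val hrec hp hpr k l (fun h => hne (by rw [h]))
  have e1 : ∀ f : RR → ZMod 2, (fun w => f (φ w)) =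
      Sum.elim (fun u : S₀ => f u) (fun i => f (p i)) := by
    intro f
    rw [hφ]
    funext w
    rcases w with u | i
    · rfl
    · rfl
  unfold Pool.Agent.N848.SK.ev
  rw [hT RR (S₀ ⊕ ι) (S₀ ∪ univ.image p) φ cA _ tt gg hh hinj hS hM, e1, e1, e1]

end one

/-- **The count in a box.** -/
theorem t_BOXE (hrec : RecP) (hEQ : S_EQ) {E : Evt} {θ : ℝ} (hT : Tr E) {ε : ℝ} {V : ℕ}
    (hLA : LawE E θ ε V) (ι : Type) [Fintype ι] [LinearOrder ι]
    (C : ι → Finset RR) (X : ι → ℕ) (κ : ℝ) (S₀ : Finset RR) (hκ : 0 ≤ κ)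
    (hCX : ∀ i, (C i).card ≤ X i)
    (hHB : HB C X κ) (hS₀ : ∀ u ∈ S₀, Pq u) (hC : ∀ i, ∀ π ∈ C i, Pq π ∧ π ∉ S₀)
    (hdis : ∀ i l, i ≠ l → Disjoint (C i) (C l))
    (hhyp : ∀ p ∈ Fintype.piFinset C, 4 * S₀.card + V ≤
      (univ.filter fun i => tt (p i) = 1).card ∧ ∑ u ∈ S₀, tt u + ∑ i, tt (p i) = 0) :
    |(((Fintype.piFinset C).filter fun p => Nd5 S₀ (univ.image p) ∧
        Pool.Agent.N848.SK.ev E (S₀ ∪ univ.image p)).card : ℝ) -
      θ * (((Fintype.piFinset C).filter fun p => Nd5 S₀ (univ.image p)).card : ℝ)| ≤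
    ε * (((Fintype.piFinset C).filter fun p => Nd5 S₀ (univ.image p)).card : ℝ) +
    2 ^ ((S₀.card + 3) * Fintype.card ι + (prs ι).card) * (κ * ∏ j, (X j : ℝ)) := by
  obtain ⟨R, hR⟩ : ∃ R : ℝ, R = 2 ^ (prs ι).card * (κ * ∏ j, (X j : ℝ)) := ⟨_, rfl⟩
  have hR0 : 0 ≤ R := by
    rw [hR]
    exact mul_nonneg (by positivity)
      (mul_nonneg hκ (Finset.prod_nonneg fun j _ => by positivity))
  -- facts on tuples
  have hinj : ∀ p ∈ Fintype.piFinset C, Function.Injective p := by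
    intro p hp i j hij
    rw [Fintype.mem_piFinset] at hp
    by_contra hne
    have h1 := Finset.disjoint_left.1 (hdis i j hne) (hp i)
    rw [hij] at h1
    exact h1 (hp j)
  have hd : ∀ p ∈ Fintype.piFinset C, ∀ i, p i ∉ S₀ := by
    intro p hp i
    rw [Fintype.mem_piFinset] at hp
    exact (hC i _ (hp i)).2
  have hpr : ∀ p ∈ Fintype.piFinset C, ∀ i, Pq (p i) := by
    intro p hp i
    rw [Fintype.mem_piFinset] at hp
    exact (hC i _ (hp i)).1
  -- the part with given labels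
  have h1 : ∀ β : ι → (S₀ → ZMod 2) × ZMod 2 × ZMod 2 × ZMod 2, LN S₀ β →
      |(((Fintype.piFinset C).filter fun p => (fun i => lb S₀ (p i)) = β ∧
          Pool.Agent.N848.SK.ev E (S₀ ∪ univ.image p)).card : ℝ) -
        θ * (((Fintype.piFinset C).filter fun p => (fun i => lb S₀ (p i)) = β).card : ℝ)| ≤
      ε * (((Fintype.piFinset C).filter fun p => (fun i => lb S₀ (p i)) = β).card : ℝ) + R := by
    intro β hβ
    by_cases hex : ∃ p ∈ Fintype.piFinset C, (fun i => lb S₀ (p i)) = β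
    swap
    · have e1 : ((Fintype.piFinset C).filter fun p => (fun i => lb S₀ (p i)) = β) = ∅ := by
        rw [Finset.filter_eq_empty_iff]
        intro p hp h
        exact hex ⟨p, hp, h⟩
      have e2 : ((Fintype.piFinset C).filter fun p => (fun i => lb S₀ (p i)) = β ∧
          Pool.Agent.N848.SK.ev E (S₀ ∪ univ.image p)) = ∅ := by
        rw [Finset.filter_eq_empty_iff]
        rintro p hp ⟨h, -⟩
        exact hex ⟨p, hp, h⟩
      rw [e1, e2, Finset.card_empty, Nat.cast_zero, mul_zero, mul_zero, sub_zero, abs_zero,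
        zero_add]
      exact hR0
    obtain ⟨q₀, hq₀, hq₀β⟩ := hex
    obtain ⟨hc1, hc2⟩ := hhyp q₀ hq₀
    obtain ⟨C', hC'⟩ : ∃ C' : ι → Finset RR, C' = fun i => (C i).filter fun q => lb S₀ q = β i :=
      ⟨_, rfl⟩
    have hpi : (Fintype.piFinset C).filter (fun p => (fun i => lb S₀ (p i)) = β) =
        Fintype.piFinset C' := by
      ext p
      simp only [Finset.mem_filter, Fintype.mem_piFinset, hC']
      constructor
      · rintro ⟨h2, h3⟩ i
        exact ⟨h2 i, congrFun h3 i⟩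
      · intro h2
        exact ⟨fun i => (h2 i).1, funext fun i => (h2 i).2⟩
    have htt : ∀ i, (β i).2.1 = tt (q₀ i) := by
      intro i
      rw [← hq₀β]
      rfl
    have h2 := hLA S₀ ι (fun u => tt u) (fun u => gg u) (fun u => hh u) (fun i => (β i).2.1)
      (fun i => (β i).2.2.1) (fun i => (β i).2.2.2)
      (fun u v => cs v u) (fun u l => (β l).1 u)
      (by
        rw [Fintype.card_coe]
        simp only [htt]
        exact hc1)
      (by
        simp only [htt]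
        rw [Finset.sum_coe_sort S₀ (fun u => tt u)]
        exact hc2)
      hβ.1 hβ.2.1
      (fun u v huv => by
        have h3 := hrec (u : RR) v (hS₀ u u.2) (hS₀ v v.2) (fun h => huv (Subtype.ext h))
        rw [← h3, add_comm])
      hβ.2.2
    obtain ⟨Q, hQ⟩ : ∃ Q : (prs ι → ZMod 2) → Prop, Q = fun α =>
        E (S₀ ⊕ ι) univ (MM (fun u : S₀ => tt u) (fun i => (β i).2.1)
          (fun u v : S₀ => cs v u) (fun (u : S₀) l => (β l).1 u)
          (Pool.Agent.R426.QK.ext (fun i => (β i).2.1) α))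
          (Sum.elim (fun u : S₀ => tt u) (fun i => (β i).2.1))
          (Sum.elim (fun u : S₀ => gg u) (fun i => (β i).2.2.1))
          (Sum.elim (fun u : S₀ => hh u) (fun i => (β i).2.2.2)) := ⟨_, rfl⟩
    have h3 := hEQ ι C' X κ hκ
      (fun i => (Finset.card_le_card (by rw [hC']; exact Finset.filter_subset _ _)).trans (hCX i))
      (by rw [hC']; exact HB_sub hHB fun i q => lb S₀ q = β i) Q
    have h4 : ((Fintype.piFinset C).filter fun p => (fun i => lb S₀ (p i)) = β ∧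
        Pool.Agent.N848.SK.ev E (S₀ ∪ univ.image p)) = ((Fintype.piFinset C').filter fun p =>
          Q fun e => cs (p e.1.1) (p e.1.2)) := by
      rw [← hpi, Finset.filter_filter]
      refine Finset.filter_congr fun p hp => ?_
      refine and_congr_right fun hl => ?_
      rw [gd_iff hrec hT (hinj p hp) (hpr p hp) hS₀ (hd p hp)]
      subst hl
      rw [hQ]
      exact Iff.rfl
    have h5 : (((Fintype.piFinset C').card : ℕ) : ℝ) = ∏ j, ((C' j).card : ℝ) := by
      rw [Fintype.card_piFinset]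
      push_cast
      rfl
    rw [h4, hpi, h5]
    rw [← hR] at h3
    obtain ⟨n, hn⟩ : ∃ n : ℝ, n = (((Fintype.piFinset C').filter fun p =>
          Q fun e => cs (p e.1.1) (p e.1.2)).card : ℝ) := ⟨_, rfl⟩
    obtain ⟨q, hq⟩ : ∃ q : ℝ, q = ((univ.filter Q).card : ℝ) / 2 ^ (prs ι).card := ⟨_, rfl⟩
    obtain ⟨P, hP⟩ : ∃ P : ℝ, P = ∏ j, ((C' j).card : ℝ) := ⟨_, rfl⟩
    have hP0 : 0 ≤ P := by
      rw [hP]
      exact Finset.prod_nonneg fun j _ => by positivity
    have h2' : |q - θ| ≤ ε := by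
      refine le_trans (le_of_eq ?_) h2
      rw [hq]
      exact congrArg (fun n : ℕ => |(n : ℝ) / 2 ^ (prs ι).card - θ|)
        (fcc fun α _ => Iff.of_eq (congrFun hQ α))
    rw [← hn, ← hq, ← hP] at h3
    rw [← hn, ← hP]
    have h6 : |n - θ * P| ≤ |n - q * P| + |q - θ| * P := by
      have h7 : n - θ * P = (n - q * P) + (q - θ) * P := by ring
      have h8 : |(q - θ) * P| = |q - θ| * P := by rw [abs_mul, abs_of_nonneg hP0]
      rw [h7, ← h8]
      exact abs_add_le _ _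
    have h7 : |q - θ| * P ≤ ε * P := mul_le_mul_of_nonneg_right h2' hP0
    linarith
  -- sum over the labels
  obtain ⟨LL, hLL⟩ : ∃ LL : Finset (ι → (S₀ → ZMod 2) × ZMod 2 × ZMod 2 × ZMod 2),
      LL = univ.filter (fun β => LN S₀ β) := ⟨_, rfl⟩
  have hfib : ∀ T : (ι → RR) → Prop,
      (((Fintype.piFinset C).filter fun p => Nd5 S₀ (univ.image p) ∧ T p).card : ℝ) =
      ∑ β ∈ LL, (((Fintype.piFinset C).filter fun p =>
        (fun i => lb S₀ (p i)) = β ∧ T p).card : ℝ) := by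
    intro T
    rw [Finset.card_eq_sum_card_fiberwise (f := fun (p : ι → RR) (i : ι) => lb S₀ (p i))
      (t := LL) (by
        intro p hp
        rw [Finset.mem_coe, Finset.mem_filter] at hp
        rw [Finset.mem_coe, hLL, Finset.mem_filter]
        exact ⟨Finset.mem_univ _, (nd_iff (hinj p hp.1)).1 hp.2.1⟩)]
    push_cast
    refine Finset.sum_congr rfl fun β hβ => ?_
    rw [hLL, Finset.mem_filter] at hβ
    congr 2
    ext p
    simp only [Finset.mem_filter]
    constructor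
    · rintro ⟨⟨h3, h4, h4'⟩, h5⟩
      exact ⟨h3, h5, h4'⟩
    · rintro ⟨h3, h4, h5⟩
      refine ⟨⟨h3, ?_, h5⟩, h4⟩
      rw [nd_iff (hinj p h3), h4]
      exact hβ.2
  have hf1 := hfib fun p => Pool.Agent.N848.SK.ev E (S₀ ∪ univ.image p)
  have hf2 := hfib fun _ => True
  simp only [and_true] at hf2
  rw [hf1, hf2, Finset.mul_sum, ← Finset.sum_sub_distrib]
  refine (Finset.abs_sum_le_sum_abs _ _).trans ?_
  refine (Finset.sum_le_sum fun β hβ => h1 β (by
    rw [hLL] at hβ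
    exact (Finset.mem_filter.1 hβ).2)).trans ?_
  rw [Finset.sum_add_distrib, ← Finset.mul_sum, Finset.sum_const, nsmul_eq_mul]
  have h5 : ((LL.card : ℕ) : ℝ) ≤ 2 ^ ((S₀.card + 3) * Fintype.card ι) := by
    have h6 : LL.card ≤ Fintype.card (ι → (S₀ → ZMod 2) × ZMod 2 × ZMod 2 × ZMod 2) :=
      Finset.card_le_univ _
    rw [Fintype.card_fun, Fintype.card_prod, Fintype.card_prod, Fintype.card_prod,
      Fintype.card_fun, ZMod.card, Fintype.card_coe] at h6
    have h7 : 2 ^ S₀.card * (2 * (2 * 2)) = 2 ^ (S₀.card + 3) := by ring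
    rw [h7, ← pow_mul] at h6
    exact_mod_cast h6
  have h6 := mul_le_mul_of_nonneg_right h5 hR0
  rw [pow_add, mul_assoc, ← hR]
  linarith

/-- the statement for the boxes with the decidability of equality as a variable -/
theorem box_dec (hR : RecP) (hE : S_EQ) {E : Evt} {θ : ℝ} (hT : Tr E) {ε : ℝ} {V : ℕ}
    (hL : LawE E θ ε V) (ι : Type)
    [Fintype ι] [inst : DecidableEq ι]
    (lo : LinearOrder ι) (C : ι → Finset RR) (X : ι → ℕ) (κ : ℝ) (S₀ : Finset RR) (h1 : 0 ≤ κ)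
    (h2 : ∀ i, (C i).card ≤ X i) (h3 : HB C X κ) (h4 : ∀ u ∈ S₀, Pq u)
    (h5 : ∀ i, ∀ π ∈ C i, Pq π ∧ π ∉ S₀) (h6 : ∀ i l, i ≠ l → Disjoint (C i) (C l))
    (h7 : ∀ p ∈ Fintype.piFinset C, 4 * S₀.card + V ≤ (univ.filter fun i => tt (p i) = 1).card ∧
      ∑ u ∈ S₀, tt u + ∑ i, tt (p i) = 0) :
    |(((Fintype.piFinset C).filter fun p => Nd5 S₀ (univ.image p) ∧
        Pool.Agent.N848.SK.ev E (S₀ ∪ univ.image p)).card : ℝ) -
      θ * (((Fintype.piFinset C).filter fun p => Nd5 S₀ (univ.image p)).card : ℝ)| ≤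
    ε * (((Fintype.piFinset C).filter fun p => Nd5 S₀ (univ.image p)).card : ℝ) +
    2 ^ ((S₀.card + 3) * Fintype.card ι + (prs ι).card) * (κ * ∏ j, (X j : ℝ)) := by
  have e : inst = fun a b => lo.toDecidableEq a b := Subsingleton.elim _ _
  subst e
  exact t_BOXE hR hE hT hL ι C X κ S₀ h1 h2 h3 h4 h5 h6 h7

theorem per_key (hR : RecP) (hE : S_EQ) {E : Evt} {θ : ℝ} (hT : Tr E) {ε : ℝ} {V : ℕ}
    (hL : LawE E θ ε V)
    (hε : 0 < ε) {C₁ : ℝ}
    (hb1 : ∀ (P Q : Finset RR) (A B z : ℕ) (c d : RR → ℂ),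
      (∀ π ∈ P, Pq π ∧ nrm π ≤ A) → (∀ ρ ∈ Q, Pq ρ ∧ nrm ρ ≤ B) → Disjoint P Q →
      1 ≤ z → z ≤ A → z ≤ B → (∀ π, ‖c π‖ ≤ 1) → (∀ ρ, ‖d ρ‖ ≤ 1) →
      ‖∑ π ∈ P, ∑ ρ ∈ Q, c π * d ρ * ez (cs π ρ)‖ ^ 24 * z ≤ C₁ * ((A : ℝ) * B) ^ 24)
    {X z H k : ℕ} {κ : ℝ} (hH : 1 ≤ H) (hz : 1 ≤ z) (hκ : 0 ≤ κ)
    (h1 : C₁ ≤ κ ^ 24 * z) {S₀ : Finset RR} {J : Finset ℕ}
    (hkey : (S₀, J) ∈ (Rg X z H k V).image (ky z H)) :
    |(((Rg X z H k V).filter fun S => ky z H S = (S₀, J) ∧
        (Nd5 (sm z S) (la z S) ∧ Pool.Agent.N848.SK.ev E S)).card : ℝ) -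
      θ * (((Rg X z H k V).filter fun S => ky z H S = (S₀, J) ∧
        Nd5 (sm z S) (la z S)).card : ℝ)| ≤
    ε * (((Rg X z H k V).filter fun S => ky z H S = (S₀, J) ∧ True).card : ℝ) +
      (3 ^ (9 * k ^ 2) * κ) * (X * (1 / ((∏ p ∈ S₀, nrm p : ℕ) : ℝ))) := by
  obtain ⟨h₀O, h₀, hJi, hCd, hJf⟩ := key_facts hH hkey
  obtain ⟨c1, c4, c5, c6⟩ := hCd
  have hcJ : Fintype.card J = J.card := Fintype.card_coe J
  have hCmem : ∀ i : J, ∀ p ∈ CC z H i, Pq p ∧ z < nrm p ∧ nrm p ≤ XX H (i.1 / 4) := by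
    intro i p hp
    obtain ⟨k1, k2, k3⟩ := (mem_CC hH).1 hp
    refine ⟨k1, k2, ?_⟩
    unfold CC at hp
    rw [Finset.mem_filter, mem_QB] at hp
    exact hp.1.1
  have hdis : ∀ i l : J, i ≠ l → Disjoint (CC z H (i : ℕ)) (CC z H (l : ℕ)) := by
    intro i l hil
    rw [Finset.disjoint_left]
    intro p hp hp'
    have h5 := ((mem_CC hH).1 hp).2.2
    have h6 := ((mem_CC hH).1 hp').2.2
    exact hil (Subtype.ext (h5.symm.trans h6))
  have hzX : ∀ i : J, z ≤ XX H (i.1 / 4) := fun i => (hJf i i.2).1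
  have hHB : HB (fun i : J => CC z H i) (fun i : J => 16 * XX H (i.1 / 4)) κ :=
    hb_box hb1 _ _ hz hκ h1 (fun i => by have := hzX i; omega)
      (fun i p hp => by
        obtain ⟨k1, k2, k3⟩ := hCmem i p hp
        exact ⟨k1, by omega⟩) hdis
  have hcard : ∀ i : J, (CC z H (i : ℕ)).card ≤ 16 * XX H (i.1 / 4) := by
    intro i
    refine (Finset.card_filter_le _ _).trans (card_QB_le ?_)
    have := hzX i
    omega
  have hph : ∀ p ∈ Fintype.piFinset (fun i : J => CC z H (i : ℕ)), ∀ i : J,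
      nrm (p i) % 4 = (i : ℕ) % 4 := by
    intro p hp i
    rw [Fintype.mem_piFinset] at hp
    have h5 := ((mem_CC hH).1 (hp i)).2.2
    rw [← ph_mod H (p i), h5]
  have hbox := box_dec hR hE hT hL J inferInstance (fun i : J => CC z H i)
    (fun i : J => 16 * XX H (i.1 / 4)) κ S₀ hκ hcard hHB h₀O (fun i p hp => by
      obtain ⟨k1, k2, k3⟩ := hCmem i p hp
      refine ⟨k1, fun h => ?_⟩
      have := h₀ p h
      omega) hdis (by
        intro p hp
        have hq := hph p hp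
        constructor
        · refine c6.trans (le_of_eq ?_)
          have h5 : (J.filter fun i => i % 4 = 3) =
              (univ.filter fun i : J => tt (p i) = 1).image (fun i : J => (i : ℕ)) := by
            ext i
            rw [Finset.mem_filter, Finset.mem_image]
            constructor
            · rintro ⟨hi, hi3⟩
              refine ⟨⟨i, hi⟩, ?_, rfl⟩
              rw [Finset.mem_filter]
              refine ⟨Finset.mem_univ _, tt_one.2 ?_⟩
              rw [hq ⟨i, hi⟩]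
              exact hi3
            · rintro ⟨j, hj, rfl⟩
              rw [Finset.mem_filter] at hj
              refine ⟨j.2, ?_⟩
              rw [← hq j]
              exact tt_one.1 hj.2
          rw [h5, Finset.card_image_of_injective _ Subtype.val_injective]
        · rw [Fintype.mem_piFinset] at hp
          have h5 := prod_tt S₀ (fun u => u) h₀O
          have h6 := prod_tt (univ : Finset J) p fun i _ => ((mem_CC hH).1 (hp i)).1
          have h7 : (∏ i ∈ J, i) % 4 = (∏ i : J, nrm (p i)) % 4 := by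
            rw [← Finset.prod_coe_sort J (fun i => i)]
            rw [Finset.prod_nat_mod, Finset.prod_nat_mod univ 4 (fun i : J => nrm (p i))]
            congr 1
            exact Finset.prod_congr rfl fun i _ => (hq i).symm
          rw [Nat.mul_mod, h7] at c1
          rcases h5 with ⟨h5, h8⟩ | ⟨h5, h8⟩ <;> rcases h6 with ⟨h6, h9⟩ | ⟨h6, h9⟩ <;>
            rw [h5, h6] at c1 <;> rw [h8, h9]
          · rfl
          · omega
          · omega
          · decide)
  have e1 : (((Fintype.piFinset fun i : J => CC z H i).filter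
      fun p => Nd5 S₀ (univ.image p) ∧ Pool.Agent.N848.SK.ev E (S₀ ∪ univ.image p)).card) =
      ((Rg X z H k V).filter fun S => ky z H S = (S₀, J) ∧
        (Nd5 (sm z S) (la z S) ∧ Pool.Agent.N848.SK.ev E S)).card := by
    refine Eq.trans (fcc ?_) ((key_bij hH hkey (fun S => Nd5 (sm z S) (la z S) ∧ Pool.Agent.N848.SK.ev E S)).trans
      (fcc fun _ _ => Iff.rfl))
    intro p hp
    rw [Fintype.mem_piFinset] at hp
    rw [sm_fill hH h₀ hp, la_fill hH h₀ hp]
  have e2 : (((Fintype.piFinset fun i : J => CC z H i).filter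
      fun p => Nd5 S₀ (univ.image p)).card) =
      ((Rg X z H k V).filter fun S => ky z H S = (S₀, J) ∧ Nd5 (sm z S) (la z S)).card := by
    refine Eq.trans (fcc ?_) ((key_bij hH hkey (fun S => Nd5 (sm z S) (la z S))).trans
      (fcc fun _ _ => Iff.rfl))
    intro p hp
    rw [Fintype.mem_piFinset] at hp
    rw [sm_fill hH h₀ hp, la_fill hH h₀ hp]
  rw [← e1, ← e2]
  have e3 : (((Fintype.piFinset fun i : J => CC z H i).filter
      fun p => Nd5 S₀ (univ.image p)).card : ℝ) ≤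
      (((Rg X z H k V).filter fun S => ky z H S = (S₀, J) ∧ True).card : ℝ) := by
    rw [e2]
    have : (Rg X z H k V).filter (fun S => ky z H S = (S₀, J) ∧ Nd5 (sm z S) (la z S)) ⊆
        (Rg X z H k V).filter fun S => ky z H S = (S₀, J) ∧ True := by
      intro S hS
      rw [Finset.mem_filter] at hS ⊢
      exact ⟨hS.1, hS.2.1, trivial⟩
    exact_mod_cast Finset.card_le_card this
  refine hbox.trans ?_
  have hJK : J.card ≤ k := by omega
  have hSK : S₀.card ≤ k := by omega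
  obtain ⟨m, hm⟩ : ∃ m : ℕ, m = (prs J).card := ⟨_, rfl⟩
  have hpr : m ≤ k * k := by
    rw [hm]
    refine (prs_card J).trans ?_
    rw [hcJ]
    exact Nat.mul_le_mul hJK hJK
  rw [← hm]
  have hN0 : (0 : ℝ) < ((∏ p ∈ S₀, nrm p : ℕ) : ℝ) := by
    exact_mod_cast Finset.prod_pos fun p hp => nrm_one_le (h₀O p hp)
  have hprod : ∏ j : J, ((16 * XX H (j.1 / 4) : ℕ) : ℝ) ≤
      3 ^ (3 * k) * (X * (1 / ((∏ p ∈ S₀, nrm p : ℕ) : ℝ))) := by
    have h5 : ∏ j : J, ((16 * XX H (j.1 / 4) : ℕ) : ℝ) =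
        16 ^ J.card * ((∏ i ∈ J, XX H (i / 4) : ℕ) : ℝ) := by
      rw [← Finset.prod_coe_sort J (fun i => XX H (i / 4))]
      push_cast
      rw [Finset.prod_mul_distrib, Finset.prod_const, Finset.card_univ, hcJ]
    have h6 : ((∏ i ∈ J, XX H (i / 4) : ℕ) : ℝ) ≤ X * (1 / ((∏ p ∈ S₀, nrm p : ℕ) : ℝ)) := by
      rw [mul_one_div, le_div_iff₀ hN0, mul_comm]
      exact_mod_cast c5
    have h7 : (16 : ℝ) ^ J.card ≤ 3 ^ (3 * k) := by
      calc (16 : ℝ) ^ J.card ≤ 27 ^ J.card := pow_le_pow_left₀ (by norm_num) (by norm_num) _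
        _ = 3 ^ (3 * J.card) := by rw [pow_mul]; norm_num
        _ ≤ 3 ^ (3 * k) := pow_le_pow_right₀ (by norm_num) (by omega)
    rw [h5]
    gcongr
  have hpw : (2 : ℝ) ^ ((S₀.card + 3) * Fintype.card J + m) * 3 ^ (3 * k) ≤ 3 ^ (9 * k ^ 2) := by
    refine (mul_le_mul_of_nonneg_right (pow_le_pow_left₀ (by norm_num)
      (show (2 : ℝ) ≤ 3 by norm_num) _) (by positivity)).trans ?_
    rw [← pow_add]
    apply pow_le_pow_right₀ (by norm_num)
    rw [hcJ]
    have h5 : S₀.card * J.card ≤ k * k := Nat.mul_le_mul hSK hJK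
    have h6 : k ≤ k * k := by
      rcases Nat.eq_zero_or_pos k with h | h
      · rw [h]
      · exact Nat.le_mul_of_pos_left k h
    nlinarith
  refine add_le_add ?_ ?_
  · exact mul_le_mul_of_nonneg_left e3 hε.le
  · have hX1 : (0 : ℝ) ≤ X * (1 / ((∏ p ∈ S₀, nrm p : ℕ) : ℝ)) := by positivity
    calc (2 : ℝ) ^ ((S₀.card + 3) * Fintype.card J + m) *
        (κ * ∏ j : J, ((16 * XX H (j.1 / 4) : ℕ) : ℝ)) ≤
        2 ^ ((S₀.card + 3) * Fintype.card J + m) *
          (κ * (3 ^ (3 * k) * (X * (1 / ((∏ p ∈ S₀, nrm p : ℕ) : ℝ))))) := by gcongr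
      _ = (2 ^ ((S₀.card + 3) * Fintype.card J + m) * 3 ^ (3 * k)) *
          (κ * (X * (1 / ((∏ p ∈ S₀, nrm p : ℕ) : ℝ)))) := by ring
      _ ≤ 3 ^ (9 * k ^ 2) * (κ * (X * (1 / ((∏ p ∈ S₀, nrm p : ℕ) : ℝ)))) := by gcongr
      _ = _ := by ring

/-- **SK-KEY.** -/
theorem t_KEYE : S_KEYE := by
  rintro hR ⟨C₁, hC₁, hb1⟩ hE E θ hTr hLaw
  refine ⟨C₁, hC₁, ?_⟩
  intro ε hε
  obtain ⟨V, hL⟩ := hLaw ε hε
  refine ⟨V, ?_⟩
  intro X z H k N κ hX hH hz hκ h1 hN
  set T := (Rg X z H k V).image (ky z H) with hT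
  have hfib : ∀ P : Finset RR → Prop, (((Rg X z H k V).filter fun S => P S).card : ℝ) =
      ∑ k' ∈ T, (((Rg X z H k V).filter fun S => ky z H S = k' ∧ P S).card : ℝ) := by
    intro P
    rw [Finset.card_eq_sum_card_fiberwise (f := ky z H) (t := T) (by
      intro S hS
      rw [Finset.mem_coe, Finset.mem_filter] at hS
      exact Finset.mem_coe.2 (Finset.mem_image_of_mem _ hS.1))]
    push_cast
    refine Finset.sum_congr rfl fun k' _ => ?_
    congr 2
    ext S
    simp only [Finset.mem_filter]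
    tauto
  have hall : ((Rg X z H k V).card : ℝ) =
      ∑ k' ∈ T, (((Rg X z H k V).filter fun S => ky z H S = k' ∧ True).card : ℝ) := by
    rw [Finset.card_eq_sum_card_fiberwise (f := ky z H) (t := T) (by
      intro S hS
      exact Finset.mem_coe.2 (Finset.mem_image_of_mem _ hS))]
    push_cast
    exact Finset.sum_congr rfl fun k' _ => congrArg _ (fcc fun _ _ => by tauto)
  have q1 : (((Rg X z H k V).filter fun S => Nd5 (sm z S) (la z S) ∧ Pool.Agent.N848.SK.ev E S).card : ℝ) =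
      ∑ k' ∈ T, (((Rg X z H k V).filter fun S => ky z H S = k' ∧
        (Nd5 (sm z S) (la z S) ∧ Pool.Agent.N848.SK.ev E S)).card : ℝ) :=
    (congrArg _ (fcc fun _ _ => Iff.rfl)).trans ((hfib fun S => Nd5 (sm z S) (la z S) ∧ Pool.Agent.N848.SK.ev E S).trans
      (Finset.sum_congr rfl fun k' _ => congrArg _ (fcc fun _ _ => Iff.rfl)))
  rw [q1, hfib, Finset.mul_sum, ← Finset.sum_sub_distrib, hall, Finset.mul_sum]
  refine (Finset.abs_sum_le_sum_abs _ _).trans ?_
  have h3 : ∑ k' ∈ T, |(((Rg X z H k V).filter fun S => ky z H S = k' ∧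
      (Nd5 (sm z S) (la z S) ∧ Pool.Agent.N848.SK.ev E S)).card : ℝ) - θ * (((Rg X z H k V).filter fun S =>
      ky z H S = k' ∧ Nd5 (sm z S) (la z S)).card : ℝ)| ≤
      ∑ k' ∈ T, (ε * (((Rg X z H k V).filter fun S =>
      ky z H S = k' ∧ True).card : ℝ) +
      (3 ^ (9 * k ^ 2) * κ) * (X * (1 / ((∏ p ∈ k'.1, nrm p : ℕ) : ℝ)))) := by
    refine Finset.sum_le_sum fun k' hk => ?_
    obtain ⟨S₀, J⟩ := k'
    exact per_key hR hE hTr hL hε hb1 hH hz hκ h1 hk
  refine h3.trans ?_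
  rw [Finset.sum_add_distrib]
  refine add_le_add (le_refl _) ?_
  exact keg_err hX hH hz hκ hN fun k' hk => hk

end Pool.Agent.N749.SK.Key
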